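import Pool.Agent.Work.MP_1233f5_ag.LS.Glue

set_option autoImplicit false
open scoped TensorProduct

namespace Pool.Agent.Results.MP_1233f5_ag.LinearStrand

/-- `KV n d T p`: every Koszul cycle in `Λ^p (S^d ℂ^n) ⊗ S^T ℂ^n` is a boundary. The text is that of
the frozen statement `S00035` for one `n`, with `T` in the place of `q * d + b`. So
`KV (n + 1) d (q * d + b) p` says that `K_{p,q}(P^n, O(b); O(d)) = 0`. -/
def KV (n d T p : ℕ) : Prop :=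
  ∀ D : (ExteriorAlgebra ℂ ↥(MvPolynomial.homogeneousSubmodule (Fin n) ℂ d) ⊗[ℂ] MvPolynomial (Fin n) ℂ) →ₗ[ℂ]
        (ExteriorAlgebra ℂ ↥(MvPolynomial.homogeneousSubmodule (Fin n) ℂ d) ⊗[ℂ] MvPolynomial (Fin n) ℂ),
  D = ∑ᶠ α : Fin n →₀ ℕ, TensorProduct.map
        (CliffordAlgebra.contractLeft
          (Q := (0 : QuadraticForm ℂ ↥(MvPolynomial.homogeneousSubmodule (Fin n) ℂ d)))
          ((MvPolynomial.lcoeff (R := ℂ) α : MvPolynomial (Fin n) ℂ →ₗ[ℂ] ℂ).comp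
            (MvPolynomial.homogeneousSubmodule (Fin n) ℂ d).subtype))
        (LinearMap.mulLeft ℂ (MvPolynomial.monomial α (1 : ℂ) : MvPolynomial (Fin n) ℂ)) →
  ∀ x ∈ LinearMap.range (TensorProduct.map
        ((LinearMap.range (ExteriorAlgebra.ι ℂ :
            ↥(MvPolynomial.homogeneousSubmodule (Fin n) ℂ d) →ₗ[ℂ]
              ExteriorAlgebra ℂ ↥(MvPolynomial.homogeneousSubmodule (Fin n) ℂ d))) ^ p).subtype
        (MvPolynomial.homogeneousSubmodule (Fin n) ℂ T).subtype),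
  D x = 0 → x ∈ LinearMap.range D

theorem kv_of (n d T p : ℕ) (h : Pool.Agent.Work.MP_1233f5_ag.V.KV n d p T) : KV n d T p := by
  intro D hD x hx hDx
  subst hD
  exact h x hx hDx

/-- **Theorem.** (1) Let `0 ≤ b ≤ d - 3` and `2 p < (b + 3) (d - 1) + 4 (b + 2)`,
`n p < n (2 b + 3) + (2 b + 4) d + b + 1`. Then `K_{p,2}(P^n, O(b); O(d)) = 0`.
(2) The same is true for `n ≥ 5`, `0 ≤ b ≤ d - 3` and
`(H_(n-1) + 1/6) (p - 2 b - 3) ≤ (b + 2) d - (b + 1) / 4`, where `H_m = 1 + 1/2 + ... + 1/m`.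
(3) `K_{p,2}(P^3, O(d-4); O(d)) = 0` for `d ≥ 5` and all `p < C(d+2,2) - 5`.
(4) `K_{p,2}(P^4, O(d-3); O(d)) = 0` for `d ≥ 3` and all `p < C(d+2,2) - 3`.
(5) For all `n`: `K_{p,2}(P^(n-1), O(4); O(7)) = 0` for `p < 33 = C(9,2) - 3`, and
`K_{p,2}(P^(n-1), O(5); O(8)) = 0` for `p < 42 = C(10,2) - 3`. -/
theorem result :
    (∀ n d b p : ℕ, b + 3 ≤ d → 2 * p < (b + 3) * (d - 1) + 4 * (b + 2) →
      n * p < n * (2 * b + 3) + (2 * b + 4) * d + (b + 1) → KV (n + 1) d (2 * d + b) p) ∧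
    (∀ n d b p : ℕ, 5 ≤ n → b + 3 ≤ d →
      (harmonic (n - 1) + 1 / 6) * ((p : ℚ) - (2 * b + 3)) ≤ ((b : ℚ) + 2) * d - (b + 1) / 4 →
      KV (n + 1) d (2 * d + b) p) ∧
    (∀ n d p : ℕ, n ≤ 4 → 5 ≤ d → (p : ℤ) < (Nat.choose (d + 2) 2 : ℤ) - 5 →
      KV n d (2 * d + (d - 4)) p) ∧
    (∀ n d p : ℕ, n ≤ 5 → 3 ≤ d → (p : ℤ) < (Nat.choose (d + 2) 2 : ℤ) - 3 →
      KV n d (2 * d + (d - 3)) p) ∧
    (∀ n p : ℕ, (p < 33 → KV n 7 (2 * 7 + 4) p) ∧ (p < 42 → KV n 8 (2 * 8 + 5) p)) := by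
  refine ⟨?_, ?_, ?_, ?_, ?_⟩
  · intro n d b p hbd h1 h2
    have h3 : 2 * d + b = 2 * d - 1 + (b + 1) := by omega
    rw [h3]
    refine kv_of _ _ _ _ (Pool.Agent.Work.MP_1233f5_ag.LS.KV_C (by omega) (by omega) (by omega)
      (Or.inl h1) ?_)
    have h4 : n * (2 * (b + 1) + 1) + (2 * (b + 1) + 2) * d + (b + 1) =
        n * (2 * b + 3) + (2 * b + 4) * d + (b + 1) := by ring
    rw [h4]
    exact h2
  · intro n d b p hn hbd h
    have h3 : 2 * d + b = 2 * d - 1 + (b + 1) := by omega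
    rw [h3]
    refine kv_of _ _ _ _ (Pool.Agent.Work.MP_1233f5_ag.LS.KV_D (by omega) (by omega) (by omega)
      hn ?_)
    rw [Pool.Agent.Work.MP_1233f5_ag.LS.gg_harmonic (by omega)]
    unfold Pool.Agent.Work.MP_1233f5_ag.LS.IThmD.AA
    push_cast
    have e1 : (p : ℚ) - (2 * ((b : ℚ) + 1) + 1) = (p : ℚ) - (2 * b + 3) := by ring
    have e2 : (((b : ℚ) + 1) + 1) * d - ((b : ℚ) + 1) / 4 = ((b : ℚ) + 2) * d - (b + 1) / 4 := by
      ring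
    rw [e1, e2]
    exact h
  · intro n d p hn hd hp
    obtain ⟨e, rfl⟩ : ∃ e, d = e + 3 := ⟨d - 3, by omega⟩
    have h1 : 2 * (e + 3) + (e + 3 - 4) = 2 * (e + 3) - 1 + e := by omega
    have h2 : 2 * (e + 3 + 2).choose 2 = (e + 5) * (e + 4) := by
      have h3 := Nat.choose_two_right (e + 5)
      have h4 : (e + 5) * (e + 5 - 1) / 2 * 2 = (e + 5) * (e + 5 - 1) :=
        Nat.div_mul_cancel (Nat.even_mul_pred_self (e + 5)).two_dvd
      rw [← h3] at h4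
      rw [mul_comm, h4]
      rfl
    rw [h1]
    refine kv_of _ _ _ _ (Pool.Agent.Work.MP_1233f5_ag.LS.KV_four hn hd (by omega) (by omega)
      (Or.inr ⟨rfl, ?_⟩))
    have h5 : p + 5 < (e + 3 + 2).choose 2 := by omega
    have h6 : (e + 3) * (e + 3 - 1) + 4 * (e + 1) = (e + 3) * (e + 2) + 4 * (e + 1) := rfl
    rw [h6]
    nlinarith
  · intro n d p hn hd hp
    obtain ⟨e, rfl⟩ : ∃ e, d = e + 3 := ⟨d - 3, by omega⟩
    have h1 : 2 * (e + 3) + (e + 3 - 3) = 3 * (e + 3) - 3 := by omega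
    rw [h1]
    exact kv_of _ _ _ _ (Pool.Agent.Work.MP_1233f5_ag.LS.KV_five hn hd (by omega))
  · intro n p
    exact ⟨fun hp => kv_of _ _ _ _ (Pool.Agent.Work.MP_1233f5_ag.LS.KV_seven n hp),
      fun hp => kv_of _ _ _ _ (Pool.Agent.Work.MP_1233f5_ag.LS.KV_eight n hp)⟩

end Pool.Agent.Results.MP_1233f5_ag.LinearStrand
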