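import Pool.Agent.Work.MP_1233f5_ag.Q.Glue
import Pool.Agent.Work.MP_1233f5_ag.Q.I_NP

set_option autoImplicit false
open scoped TensorProduct

namespace Pool.Agent.Results.MP_1233f5_ag.OttavianiPaolettiQuintics

/-- `Van d T p`: for every `n`, every Koszul cycle in `Λ^p (S^d ℂ^n) ⊗ S^T ℂ^n` is a boundary.
The text is that of the frozen statement `S00035`, with `T` in the place of `q * d + b`. So
`Van d (q * d + b) p` says that `K_{p,q}(P(U), b; d) = 0` for all `U`. -/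
def Van (d T p : ℕ) : Prop :=
  ∀ n : ℕ,
  ∀ D : (ExteriorAlgebra ℂ ↥(MvPolynomial.homogeneousSubmodule (Fin n) ℂ d) ⊗[ℂ] MvPolynomial (Fin n) ℂ) →ₗ[ℂ]
        (ExteriorAlgebra ℂ ↥(MvPolynomial.homogeneousSubmodule (Fin n) ℂ d) ⊗[ℂ] MvPolynomial (Fin n) ℂ),
  D = ∑ᶠ α : Fin n →₀ ℕ, TensorProduct.map
        (CliffordAlgebra.contractLeft
          (Q := (0 : QuadraticForm ℂ ↥(MvPolynomial.homogeneousSubmodule (Fin n) ℂ d)))
          ((MvPolynomial.lcoeff (R := ℂ) α : MvPolynomial (Fin n) ℂ →ₗ[ℂ] ℂ).comp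
            (MvPolynomial.homogeneousSubmodule (Fin n) ℂ d).subtype))
        (LinearMap.mulLeft ℂ (MvPolynomial.monomial α (1 : ℂ) : MvPolynomial (Fin n) ℂ)) →
  ∀ x ∈ LinearMap.range (TensorProduct.map
        ((LinearMap.range (ExteriorAlgebra.ι ℂ :
            ↥(MvPolynomial.homogeneousSubmodule (Fin n) ℂ d) →ₗ[ℂ]
              ExteriorAlgebra ℂ ↥(MvPolynomial.homogeneousSubmodule (Fin n) ℂ d))) ^ p).subtype
        (MvPolynomial.homogeneousSubmodule (Fin n) ℂ T).subtype),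
  D x = 0 → x ∈ LinearMap.range D

theorem van_of_ML (d T p : ℕ) (h : Pool.Agent.Work.MP_1233f5_ag.V.ML ℂ d T p) : Van d T p := by
  intro n D hD x hx hDx
  have key : Pool.Agent.Work.MP_1233f5_ag.V.KV n d p T :=
    Pool.Agent.Work.MP_1233f5_ag.V.KV_of_ML n d T p h
  subst hD
  exact key x hx hDx

theorem van_of_bnd (d T p : ℕ) (hd : 3 ≤ d) (hp : p < Pool.Agent.Work.MP_1233f5_ag.Q.bnd4 d T) :
    Van d T p :=
  van_of_ML d T p (Pool.Agent.Work.MP_1233f5_ag.Q.h_Adm4 ℂ d hd _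
    (Pool.Agent.Work.MP_1233f5_ag.Q.h_B4 d) T p hp)

/-- **Theorem.** (1) Let `d ≥ 5`, `0 ≤ b ≤ d - 3`, `T = 2 d + b` and
`p < min (2 d + 3 + 3 b) (C(d + 2, 2) - C(d - b - 1, 2) - 2)`. Then for every `n` every Koszul
cycle in `Λ^p (S^d ℂ^n) ⊗ S^T ℂ^n` is a boundary, that is, `K_{p,2}(P(U), b; d) = 0` for all `U`.
(2) The same is true for `d ≥ 5`, all `T ≥ 2 d` and all `p ≤ 2 d + 2`. (3) In particular it is so
for `d = 5`, `T = 10 + b`, `b = 0, 1, 2` and all `p < C(7, 2) - C(4 - b, 2) - 2`: this is the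
question Q1 for `(q, d) = (2, 5)`, and for `b = 0` the conjecture of Ottaviani and Paoletti for
quintics. (4) Let `q ≥ 2`, `b ≥ 0`, `d ≥ max (q + b + 1) 6` and
`p < (q (q + 1) / 2 - 1) (d - 1) + (q + 1) (q + b + 1) - 4`. Then `K_{p,q}(P(U), b; d) = 0` for
all `U`. -/
theorem result :
    (∀ b d p : ℕ, 5 ≤ d → b + 3 ≤ d →
      (p : ℤ) < min (2 * (d : ℤ) + 3 + 3 * (b : ℤ))
        ((Nat.choose (d + 2) 2 : ℤ) - (Nat.choose (d - b - 1) 2 : ℤ) - 2) →
      Van d (2 * d + b) p) ∧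
    (∀ d T p : ℕ, 5 ≤ d → 2 * d ≤ T → p ≤ 2 * d + 2 → Van d T p) ∧
    (∀ b p : ℕ, b ≤ 2 →
      (p : ℤ) < (Nat.choose 7 2 : ℤ) - (Nat.choose (4 - b) 2 : ℤ) - 2 → Van 5 (2 * 5 + b) p) ∧
    (∀ q b d p : ℕ, 2 ≤ q → q + b + 1 ≤ d → 6 ≤ d →
      p < (q * (q + 1) / 2 - 1) * (d - 1) + (q + 1) * (q + b + 1) - 4 →
      Van d (q * d + b) p) := by
  have h1 : ∀ b d p : ℕ, 5 ≤ d → b + 3 ≤ d →
      (p : ℤ) < min (2 * (d : ℤ) + 3 + 3 * (b : ℤ))
        ((Nat.choose (d + 2) 2 : ℤ) - (Nat.choose (d - b - 1) 2 : ℤ) - 2) →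
      Van d (2 * d + b) p := by
    intro b d p hd hbd hp
    refine van_of_bnd d _ p (by omega) (lt_of_lt_of_le ?_
      (Pool.Agent.Work.MP_1233f5_ag.Q.h_CF4b b d hd hbd))
    rw [lt_min_iff] at hp ⊢
    constructor
    · have := hp.1
      omega
    · have := hp.2
      omega
  refine ⟨h1, ?_, ?_, ?_⟩
  · intro d T p hd hT hp
    have h2 := Pool.Agent.Work.MP_1233f5_ag.Q.pr_NP d T hd hT
    exact van_of_bnd d T p (by omega) (by omega)
  · intro b p hb hp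
    refine h1 b 5 p (by norm_num) (by omega) ?_
    rw [lt_min_iff]
    have h7 : Nat.choose 7 2 = 21 := by decide
    have h8 : Nat.choose (5 + 2) 2 = 21 := by decide
    rw [h7] at hp
    rw [h8]
    have h9 : 5 - b - 1 = 4 - b := by omega
    rw [h9]
    interval_cases b
    · have : Nat.choose (4 - 0) 2 = 6 := by decide
      rw [this] at hp ⊢
      constructor <;> push_cast at hp ⊢ <;> omega
    · have : Nat.choose (4 - 1) 2 = 3 := by decide
      rw [this] at hp ⊢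
      constructor <;> push_cast at hp ⊢ <;> omega
    · have : Nat.choose (4 - 2) 2 = 1 := by decide
      rw [this] at hp ⊢
      constructor <;> push_cast at hp ⊢ <;> omega
  · intro q b d p hq hqd hd hp
    exact van_of_bnd d _ p (by omega) (lt_of_lt_of_le hp
      (Pool.Agent.Work.MP_1233f5_ag.Q.h_CF4a q b d hq hqd hd))

end Pool.Agent.Results.MP_1233f5_ag.OttavianiPaolettiQuintics
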