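import Pool.Agent.Work.MP_1233f5_ag.A.GlueX
import Pool.Agent.Work.MP_1233f5_ag.Z.Adm
import Pool.Agent.Work.MP_1233f5_ag.Y.C_CF3a
import Pool.Agent.Work.MP_1233f5_ag.Y.C_CF3b

set_option autoImplicit false
open scoped TensorProduct

namespace Pool.Agent.Results.MP_1233f5_ag.SuperlinearVanishing

/-- `Van d T p`: for every `n`, every Koszul cycle in `Λ^p (S^d ℂ^n) ⊗ S^T ℂ^n` is a boundary.
The text is that of the frozen statement `S00035`, with `T` in the place of `q * d + b`. So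
`Van d (q * d + b) p` says that `K_{p,q}(P(U), b; d) = 0` for all `U`. -/
def Van (d T p : ℕ) : Prop :=
  ∀ n : ℕ,
  ∀ D : (ExteriorAlgebra ℂ ↥(MvPolynomial.homogeneousSubmodule (Fin n) ℂ d) ⊗[ℂ] MvPolynomial (Fin n) ℂ) →ₗ[ℂ]
        (ExteriorAlgebra ℂ ↥(MvPolynomial.homogeneousSubmodule (Fin n) ℂ d) ⊗[ℂ] MvPolynomial (Fin n) ℂ),
  D = ∑ᶠ α : Fin n →₀ ℕ, TensorProduct.map
        (CliffordAlgebra.contractLeft
          (Q := (0 : QuadraticForm ℂ ↥(MvPolynomial.homogeneousSubmodule (Fin n) ℂ d)))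
          ((MvPolynomial.lcoeff (R := ℂ) α : MvPolynomial (Fin n) ℂ →ₗ[ℂ] ℂ).comp
            (MvPolynomial.homogeneousSubmodule (Fin n) ℂ d).subtype))
        (LinearMap.mulLeft ℂ (MvPolynomial.monomial α (1 : ℂ) : MvPolynomial (Fin n) ℂ)) →
  ∀ x ∈ LinearMap.range (TensorProduct.map
        ((LinearMap.range (ExteriorAlgebra.ι ℂ :
            ↥(MvPolynomial.homogeneousSubmodule (Fin n) ℂ d) →ₗ[ℂ]
              ExteriorAlgebra ℂ ↥(MvPolynomial.homogeneousSubmodule (Fin n) ℂ d))) ^ p).subtype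
        (MvPolynomial.homogeneousSubmodule (Fin n) ℂ T).subtype),
  D x = 0 → x ∈ LinearMap.range D

/-- With `k = T / (d - 1)` (integer part), `th d T` is
`C(d + k, k) - C((k + 1) (d - 1) - T + k, k) - k`. -/
def th (d T : ℕ) : ℕ :=
  (d + T / (d - 1)).choose (T / (d - 1)) -
    ((T / (d - 1) + 1) * (d - 1) - T + T / (d - 1)).choose (T / (d - 1)) - T / (d - 1)

/-- `Ex d v T s c`: false if `T = 0`; true if `T ≥ 1` and `s = 0`; otherwise: for every `n ≤ c`,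
with `m = ⌈(n d + T) / s⌉`, `n < v T` or `n + 1 < m` or `Ex d v (T - 1) (s - 1) (n + 1 - m)`. -/
def Ex (d : ℕ) (v : ℕ → ℕ) : ℕ → ℕ → ℕ → Prop
  | 0, _, _ => False
  | _ + 1, 0, _ => True
  | T + 1, s + 1, c => ∀ n ≤ c, n < v (T + 1) ∨ n + 1 < (n * d + (T + 1) + s) / (s + 1) ∨
      Ex d v T s (n + 1 - (n * d + (T + 1) + s) / (s + 1))

theorem ex_eq (d : ℕ) (v : ℕ → ℕ) (T s c : ℕ) :
    Ex d v T s c = Pool.Agent.Work.MP_1233f5_ag.Z.zb d v T s c := by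
  induction T generalizing s c with
  | zero => rfl
  | succ T ih =>
    rcases s with _ | s
    · rfl
    · simp only [Ex, Pool.Agent.Work.MP_1233f5_ag.Z.zb, ih]

theorem van_of_ML (d T p : ℕ) (h : Pool.Agent.Work.MP_1233f5_ag.V.ML ℂ d T p) : Van d T p := by
  intro n D hD x hx hDx
  have key : Pool.Agent.Work.MP_1233f5_ag.V.KV n d p T :=
    Pool.Agent.Work.MP_1233f5_ag.V.KV_of_ML n d T p h
  subst hD
  exact key x hx hDx

theorem van_of_bnd (d T p : ℕ) (hd : 3 ≤ d) (hp : p < Pool.Agent.Work.MP_1233f5_ag.Y.bnd3 d T) :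
    Van d T p :=
  van_of_ML d T p (Pool.Agent.Work.MP_1233f5_ag.Y.h_Main3 ℂ d T p hd hp)

/-- the closed form. -/
theorem van_cf (q b d p : ℕ) (L : ℝ) (hq : 2 ≤ q) (hd : 3 ≤ d) (hL : 2 ≤ L)
    (hdL : (d : ℝ) ≤ L * Real.exp (L - 1))
    (hp : (p : ℝ) < (((q : ℝ) - 2) * d + b + 1) * d / L) : Van d (q * d + b) p := by
  refine van_of_ML d _ p (Pool.Agent.Work.MP_1233f5_ag.Z.h_MainZ ℂ d _ p hd ?_)
  obtain ⟨e, rfl⟩ : ∃ e, q = e + 2 := ⟨q - 2, by omega⟩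
  have h1 := Pool.Agent.Work.MP_1233f5_ag.Z.h_CF d (e * d + b + 1) L hd hL hdL
  have h2 : 2 * d - 1 + (e * d + b + 1) = (e + 2) * d + b := by
    have h3 : (e + 2) * d = e * d + 2 * d := by ring
    omega
  rw [h2] at h1
  have h3 : (((e + 2 : ℕ) : ℝ) - 2) * d + b + 1 = ((e * d + b + 1 : ℕ) : ℝ) := by
    push_cast
    ring
  rw [h3] at hp
  exact_mod_cast lt_of_lt_of_le hp h1

/-- **Theorem.** (1) Let `d ≥ 3` and let `v : ℕ → ℕ` be such that for every `T` one of the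
following holds: `v T = 0`; `T = 2 d - 1` and `v T ≤ th d T`;
`v T ≤ min (th d T) (v (T - 1) + k + 1)` with `k = T / (d - 1)` (integer part);
`Ex d v (T + 1 - d) s (p - s)` for all `s ≤ p < v T`. Then for all `T` and all `p < v T` every
Koszul cycle in `Λ^p (S^d ℂ^n) ⊗ S^T ℂ^n` is a boundary, for all `n`. Consequently:
(2), (3) for `q ≥ 2`, `b ≥ 0`, `d ≥ 3` this is so for `T = q d + b` and
`p < ((q - 2) d + b + 1) d / L`, for every real `L ≥ 2` with `d ≤ L e^(L - 1)`, in particular for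
`L = 1 + log d`; (4) it is so for `d ≥ 3`, `T = 2 d - 1` and `p ≤ 2 d - 2`; (5) for `q ≥ 2`,
`b ≥ 0`, `d ≥ max (q + b + 1) 6`, `T = q d + b` and
`p < (q (q + 1) / 2 - 1) (d - 1) + (q + 1) (q + b + 1) - 5`; (6) for `d ≥ 4`,
`0 ≤ b ≤ d - 3`, `T = 2 d + b` and `p < min (2 d + 2 + 3 b) (C(d + 2, 2) - C(d - b - 1, 2) - 2)`;
in particular for `d ≥ 4`, `T = 2 d` and `p ≤ 2 d + 1`. -/
theorem result :
    (∀ (d : ℕ) (v : ℕ → ℕ), 3 ≤ d →
      (∀ T, v T = 0 ∨ (T = 2 * d - 1 ∧ v T ≤ th d T) ∨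
        v T ≤ min (th d T) (v (T - 1) + T / (d - 1) + 1) ∨
        ∀ p < v T, ∀ s ≤ p, Ex d v (T + 1 - d) s (p - s)) →
      ∀ T p, p < v T → Van d T p) ∧
    (∀ (q b d p : ℕ) (L : ℝ), 2 ≤ q → 3 ≤ d → 2 ≤ L → (d : ℝ) ≤ L * Real.exp (L - 1) →
      (p : ℝ) < (((q : ℝ) - 2) * d + b + 1) * d / L → Van d (q * d + b) p) ∧
    (∀ q b d p : ℕ, 2 ≤ q → 3 ≤ d →
      (p : ℝ) < (((q : ℝ) - 2) * d + b + 1) * d / (1 + Real.log d) → Van d (q * d + b) p) ∧
    (∀ d p : ℕ, 3 ≤ d → p ≤ 2 * d - 2 → Van d (2 * d - 1) p) ∧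
    (∀ q b d p : ℕ, 2 ≤ q → q + b + 1 ≤ d → 6 ≤ d →
      p < (q * (q + 1) / 2 - 1) * (d - 1) + (q + 1) * (q + b + 1) - 5 →
      Van d (q * d + b) p) ∧
    (∀ b d p : ℕ, 4 ≤ d → b + 3 ≤ d →
      (p : ℤ) < min (2 * (d : ℤ) + 2 + 3 * (b : ℤ))
        ((Nat.choose (d + 2) 2 : ℤ) - (Nat.choose (d - b - 1) 2 : ℤ) - 2) →
      Van d (2 * d + b) p) := by
  refine ⟨?_, van_cf, ?_, ?_, ?_, ?_⟩
  · intro d v hd hv T p hp
    refine van_of_ML d T p (Pool.Agent.Work.MP_1233f5_ag.Z.adm_ML ℂ d hd v ?_ T p hp)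
    intro T
    rcases hv T with h | h | h | h
    · exact Or.inl h
    · exact Or.inr (Or.inl h)
    · exact Or.inr (Or.inr (Or.inl h))
    · refine Or.inr (Or.inr (Or.inr fun p hp s hs => ?_))
      rw [← ex_eq]
      exact h p hp s hs
  · intro q b d p hq hd hp
    have hd0 : (0 : ℝ) < d := by
      have : (3 : ℝ) ≤ d := by exact_mod_cast hd
      linarith
    have hlog : 1 ≤ Real.log d := by
      rw [Real.le_log_iff_exp_le hd0]
      have h3 : (3 : ℝ) ≤ d := by exact_mod_cast hd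
      linarith [Real.exp_one_lt_three]
    refine van_cf q b d p (1 + Real.log d) hq hd (by linarith) ?_ hp
    rw [show 1 + Real.log d - 1 = Real.log d by ring, Real.exp_log hd0]
    nlinarith
  · intro d p hd hp
    refine van_of_bnd d _ p hd ?_
    obtain ⟨m, rfl⟩ : ∃ m, d = m + 3 := ⟨d - 3, by omega⟩
    have hT : 2 * (m + 3) - 1 = 2 * m + 4 + 1 := by omega
    rw [hT]
    unfold Pool.Agent.Work.MP_1233f5_ag.Y.bnd3
    rw [if_pos (by omega)]
    unfold Pool.Agent.Work.MP_1233f5_ag.V.theta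
    have hk : (2 * m + 4 + 1) / (m + 3 - 1) = 2 := by
      have h1 : m + 3 - 1 = m + 2 := by omega
      rw [h1, show 2 * m + 4 + 1 = 1 + (m + 2) * 2 by ring, Nat.add_mul_div_left _ _ (by omega)]
      have : 1 / (m + 2) = 0 := Nat.div_eq_of_lt (by omega)
      omega
    rw [hk]
    have h2 : (2 + 1) * (m + 3 - 1) - (2 * m + 4 + 1) + 2 = m + 3 := by omega
    rw [h2, show m + 3 + 2 = (m + 4) + 1 by ring]
    have h3 : ((m + 4) + 1).choose 2 = (m + 4).choose 1 + (m + 4).choose 2 :=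
      Nat.choose_succ_succ _ _
    have h4 : ((m + 3) + 1).choose 2 = (m + 3).choose 1 + (m + 3).choose 2 :=
      Nat.choose_succ_succ _ _
    have h5 : (m + 4).choose 2 = ((m + 3) + 1).choose 2 := rfl
    rw [Nat.choose_one_right] at h3 h4
    omega
  · intro q b d p hq hqd hd hp
    exact van_of_bnd d _ p (by omega) (lt_of_lt_of_le hp
      (Pool.Agent.Work.MP_1233f5_ag.Y.prf_CF3a q b d hq hqd hd))
  · intro b d p hd hbd hp
    refine van_of_bnd d _ p (by omega) (lt_of_lt_of_le ?_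
      (Pool.Agent.Work.MP_1233f5_ag.Y.prf_CF3b b d hd hbd))
    rw [lt_min_iff] at hp ⊢
    constructor
    · have := hp.1
      omega
    · have := hp.2
      omega

end Pool.Agent.Results.MP_1233f5_ag.SuperlinearVanishing
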