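import Pool.Agent.Work.MP_1233f5_ag.TL.Glue

set_option autoImplicit false
open scoped TensorProduct

namespace Pool.Agent.Results.MP_1233f5_ag.TailTheorem

/-- the linear combinations of the elements `m_1 ∧ ... ∧ m_p ⊗ m_0` of `Λ^p (S^d ℂ^n) ⊗ S^T ℂ^n`,
where `m_1, ..., m_p` are monomials of degree `d` and `m_0` is a monomial of degree `T` in
`x_0, ..., x_(n-1)` such that the product `m_0 m_1 ... m_p` has degree at most `k` in the variables
`x_j` with `j ≥ s`. -/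
noncomputable def tail (n d p T s k : ℕ) :
    Submodule ℂ (ExteriorAlgebra ℂ ↥(MvPolynomial.homogeneousSubmodule (Fin n) ℂ d) ⊗[ℂ]
      MvPolynomial (Fin n) ℂ) :=
  Submodule.span ℂ {z | ∃ (α : Fin p → (Fin n →₀ ℕ))
    (hα : ∀ i, (MvPolynomial.monomial (α i) (1 : ℂ)) ∈
      MvPolynomial.homogeneousSubmodule (Fin n) ℂ d) (β : Fin n →₀ ℕ),
    (MvPolynomial.monomial β (1 : ℂ)) ∈ MvPolynomial.homogeneousSubmodule (Fin n) ℂ T ∧
    (∑ j : Fin n, if s ≤ (j : ℕ) then β j + ∑ i, α i j else 0) ≤ k ∧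
    z = (ExteriorAlgebra.ιMulti ℂ p (fun i =>
      (⟨MvPolynomial.monomial (α i) (1 : ℂ), hα i⟩ :
        ↥(MvPolynomial.homogeneousSubmodule (Fin n) ℂ d)))) ⊗ₜ[ℂ]
      (MvPolynomial.monomial β (1 : ℂ))}

/-- **Theorem.** Let `q ≥ 1`, `b ≥ 0`, `d ≥ q + b + 1` and
`p < C(d + q, q) - C(d - b - 1, q) - q` (the range of the question Q1). Let `D` be the Koszul
differential of the frozen statement `S00035`. Then for every `n` every `x` with `D x = 0` in
`Λ^p (S^d ℂ^n) ⊗ S^(q d + b) ℂ^n` whose monomials have degree at most `(q - 1) d + b + 1` in the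
variables `x_j`, `j ≥ q + 1`, is a boundary. -/
theorem result :
    ∀ q b d p n : ℕ, 1 ≤ q → q + b + 1 ≤ d →
      (p : ℤ) < (Nat.choose (d + q) q : ℤ) - (Nat.choose (d - b - 1) q : ℤ) - (q : ℤ) →
      ∀ D : (ExteriorAlgebra ℂ ↥(MvPolynomial.homogeneousSubmodule (Fin n) ℂ d) ⊗[ℂ] MvPolynomial (Fin n) ℂ) →ₗ[ℂ]
            (ExteriorAlgebra ℂ ↥(MvPolynomial.homogeneousSubmodule (Fin n) ℂ d) ⊗[ℂ] MvPolynomial (Fin n) ℂ),
      D = ∑ᶠ α : Fin n →₀ ℕ, TensorProduct.map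
            (CliffordAlgebra.contractLeft
              (Q := (0 : QuadraticForm ℂ ↥(MvPolynomial.homogeneousSubmodule (Fin n) ℂ d)))
              ((MvPolynomial.lcoeff (R := ℂ) α : MvPolynomial (Fin n) ℂ →ₗ[ℂ] ℂ).comp
                (MvPolynomial.homogeneousSubmodule (Fin n) ℂ d).subtype))
            (LinearMap.mulLeft ℂ (MvPolynomial.monomial α (1 : ℂ) : MvPolynomial (Fin n) ℂ)) →
      ∀ x ∈ tail n d p (q * d + b) (q + 1) ((q - 1) * d + b + 1),
      D x = 0 → x ∈ LinearMap.range D := by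
  intro q b d p n hq hd hp D hD x hx hDx
  subst hD
  exact Pool.Agent.Work.MP_1233f5_ag.TL.tail_van Pool.Agent.Work.MP_1233f5_ag.TL.h_All
    Pool.Agent.Work.MP_1233f5_ag.TL.h_Pol q b d p n hq hd hp x hx hDx

end Pool.Agent.Results.MP_1233f5_ag.TailTheorem
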